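import Mathlib
import Pool.Agent.TH407.MV.Defs
import Pool.Agent.TH370.VR.Shell
set_option autoImplicit false

namespace Pool.Agent.TH761.MV

open Pool.Agent.TH407 Pool.Agent.TH407.MV
open MeasureTheory Set Complex
open scoped ENNReal NNReal Real ComplexConjugate

/-- the gnomonic radius as a function of the height -/
noncomputable def rho (ε s : ℝ) : ℝ := √(2 * s - ε ^ 2 * s ^ 2) / (1 - ε ^ 2 * s)

/-- lower end of the heights of the shell -/
noncomputable def lo (ε : ℝ) : ℝ := ps ε ((1 / 4) / (1 + ε ^ 2 / 4))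

/-- upper end of the heights of the shell -/
noncomputable def hi (ε : ℝ) : ℝ := ps ε (1 / (1 + ε ^ 2))

lemma one_sub_ps {ε R : ℝ} (h1 : ε ^ 2 * R ≤ 1) :
    1 - ε ^ 2 * ps ε R = √(1 - ε ^ 2 * R) := by
  unfold ps
  set w := √(1 - ε ^ 2 * R) with hw
  have hw0 : 0 ≤ w := Real.sqrt_nonneg _
  have hw2 : w ^ 2 = 1 - ε ^ 2 * R := Real.sq_sqrt (by linarith)
  have h3 : (1 : ℝ) + w ≠ 0 := by positivity
  have h4 : ε ^ 2 * (R / (1 + w)) = 1 - w := by
    rw [← mul_div_assoc, div_eq_iff h3]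
    linear_combination hw2
  rw [h4]; ring

lemma ps_quad {ε R : ℝ} (h1 : ε ^ 2 * R ≤ 1) :
    2 * ps ε R - ε ^ 2 * ps ε R ^ 2 = R := by
  have h2 := one_sub_ps h1
  have hw0 : 0 ≤ √(1 - ε ^ 2 * R) := Real.sqrt_nonneg _
  have h3 : (1 : ℝ) + √(1 - ε ^ 2 * R) ≠ 0 := by positivity
  have h4 : ps ε R * (1 + √(1 - ε ^ 2 * R)) = R := by
    unfold ps
    rw [div_mul_cancel₀ _ h3]
  calc 2 * ps ε R - ε ^ 2 * ps ε R ^ 2 = ps ε R * (1 + (1 - ε ^ 2 * ps ε R)) := by ring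
    _ = R := by rw [h2, h4]

lemma ps_nonneg {ε R : ℝ} (h0 : 0 ≤ R) : 0 ≤ ps ε R := by unfold ps; positivity

lemma ps_le {ε R : ℝ} (h0 : 0 ≤ R) : ps ε R ≤ R := by
  unfold ps
  refine div_le_self h0 ?_
  have := Real.sqrt_nonneg (1 - ε ^ 2 * R)
  linarith

lemma ps_mono {ε R R' : ℝ} (h0 : 0 ≤ R) (h : R ≤ R') : ps ε R ≤ ps ε R' := by
  unfold ps
  have h1 : √(1 - ε ^ 2 * R') ≤ √(1 - ε ^ 2 * R) := by
    apply Real.sqrt_le_sqrt
    nlinarith [sq_nonneg ε]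
  exact div_le_div₀ (h0.trans h) h (by positivity) (by linarith)

lemma ps_strict {ε R R' : ℝ} (h0 : 0 ≤ R) (h : R < R') : ps ε R < ps ε R' := by
  unfold ps
  have h1 : √(1 - ε ^ 2 * R') ≤ √(1 - ε ^ 2 * R) := by
    apply Real.sqrt_le_sqrt
    nlinarith [sq_nonneg ε]
  exact div_lt_div₀ h (by linarith) (h0.trans h.le) (by positivity)

lemma rho_strict {ε s s' : ℝ} (h0 : 0 ≤ s) (h : s < s') (h1 : ε ^ 2 * s' < 1) :
    rho ε s < rho ε s' := by
  unfold rho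
  have hs : ε ^ 2 * s ≤ ε ^ 2 * s' := by gcongr
  have hA0 : 0 ≤ 2 * s - ε ^ 2 * s ^ 2 := by nlinarith
  have hA : 2 * s - ε ^ 2 * s ^ 2 < 2 * s' - ε ^ 2 * s' ^ 2 := by
    nlinarith
  have h2 : √(2 * s - ε ^ 2 * s ^ 2) < √(2 * s' - ε ^ 2 * s' ^ 2) := Real.sqrt_lt_sqrt hA0 hA
  exact div_lt_div₀ h2 (by linarith) (Real.sqrt_nonneg _) (by linarith)

lemma rho_ps {ε R : ℝ} (h1 : ε ^ 2 * R ≤ 1) : rho ε (ps ε R) = √R / √(1 - ε ^ 2 * R) := by
  unfold rho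
  rw [ps_quad h1, one_sub_ps h1]

lemma arg_lo (ε : ℝ) : ε ^ 2 * ((1 / 4) / (1 + ε ^ 2 / 4)) < 1 := by
  have : 0 < 1 + ε ^ 2 / 4 := by positivity
  rw [← mul_div_assoc, div_lt_one this]
  linarith

lemma arg_hi (ε : ℝ) : ε ^ 2 * (1 / (1 + ε ^ 2)) < 1 := by
  have : 0 < 1 + ε ^ 2 := by positivity
  rw [← mul_div_assoc, div_lt_one this]
  linarith

lemma rho_lo (ε : ℝ) : rho ε (lo ε) = 1 / 2 := by
  unfold lo
  rw [rho_ps (arg_lo ε).le]
  have h : 0 < 1 + ε ^ 2 / 4 := by positivity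
  have e1 : 1 - ε ^ 2 * ((1 / 4) / (1 + ε ^ 2 / 4)) = 4 * ((1 / 4) / (1 + ε ^ 2 / 4)) := by
    field_simp
    ring
  have h2 : 0 < √((1 / 4) / (1 + ε ^ 2 / 4)) := Real.sqrt_pos.2 (by positivity)
  rw [e1, Real.sqrt_mul (by norm_num), show √(4 : ℝ) = 2 by
    rw [show (4 : ℝ) = 2 ^ 2 by norm_num]; exact Real.sqrt_sq (by norm_num)]
  field_simp

lemma rho_hi (ε : ℝ) : rho ε (hi ε) = 1 := by
  unfold hi
  rw [rho_ps (arg_hi ε).le]
  have h : 0 < 1 + ε ^ 2 := by positivity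
  have e1 : 1 - ε ^ 2 * (1 / (1 + ε ^ 2)) = 1 / (1 + ε ^ 2) := by
    field_simp
    ring
  have h2 : 0 < √(1 / (1 + ε ^ 2)) := Real.sqrt_pos.2 (by positivity)
  rw [e1, div_self h2.ne']

lemma lo_nonneg (ε : ℝ) : 0 ≤ lo ε := ps_nonneg (by positivity)

lemma hi_le_one (ε : ℝ) : hi ε ≤ 1 := by
  refine (ps_le (by positivity)).trans ?_
  have : 0 < 1 + ε ^ 2 := by positivity
  rw [div_le_one this]
  nlinarith [sq_nonneg ε]

lemma sq_hi (ε : ℝ) : ε ^ 2 * hi ε < 1 := by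
  have h1 := one_sub_ps (arg_hi ε).le
  have h2 : 0 < √(1 - ε ^ 2 * (1 / (1 + ε ^ 2))) := Real.sqrt_pos.2 (by linarith [arg_hi ε])
  unfold hi
  linarith

lemma sq_lt {ε s : ℝ} (hs : s ≤ hi ε) : ε ^ 2 * s < 1 := by
  have h1 : ε ^ 2 * s ≤ ε ^ 2 * hi ε := by gcongr
  linarith [sq_hi ε]

lemma rho_mem {ε s : ℝ} (hs : s ∈ Ioc (lo ε) (hi ε)) : rho ε s ∈ Ioc (1 / 2 : ℝ) 1 := by
  constructor
  · rw [← rho_lo ε]
    exact rho_strict (lo_nonneg ε) hs.1 (sq_lt hs.2)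
  · rw [← rho_hi ε]
    rcases hs.2.eq_or_lt with h | h
    · rw [h]
    · exact (rho_strict ((lo_nonneg ε).trans hs.1.le) h (sq_hi ε)).le

lemma rho_mono {ε s s' : ℝ} (hs : s ∈ Ioc (lo ε) (hi ε)) (hs' : s' ∈ Ioc (lo ε) (hi ε))
    (h : s ≤ s') : rho ε s ≤ rho ε s' := by
  rcases h.eq_or_lt with h | h
  · rw [h]
  · exact (rho_strict ((lo_nonneg ε).trans hs.1.le) h (sq_lt hs'.2)).le

/-- the truncated function on a meridian -/
noncomputable def psi (ε : ℝ) (f : ℝ × ℝ → ℂ) (θ s : ℝ) : ℂ :=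
  open Classical in if s ∈ Ioc (lo ε) (hi ε) then f (pg ε (rho ε s) θ) else 0

/-- the profile -/
noncomputable def aa (ε : ℝ) (f : ℝ × ℝ → ℂ) (s θ : ℝ) : ℂ :=
  open Classical in if θ ∈ Ioo (-π) π then psi ε f θ s else 0

lemma measurable_pg (ε : ℝ) : Measurable fun p : ℝ × ℝ => pg ε (rho ε p.1) p.2 := by
  unfold pg rho AR.pol
  fun_prop

lemma measurable_aa (ε : ℝ) {f : ℝ × ℝ → ℂ} (hf : Measurable f) :
    Measurable (Function.uncurry (aa ε f)) := by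
  have h1 : Measurable fun p : ℝ × ℝ => f (pg ε (rho ε p.1) p.2) := hf.comp (measurable_pg ε)
  show Measurable fun p : ℝ × ℝ => aa ε f p.1 p.2
  unfold aa psi
  refine Measurable.ite (measurable_snd measurableSet_Ioo) ?_ measurable_const
  exact Measurable.ite (measurable_fst measurableSet_Ioc) h1 measurable_const

lemma measurable_psi (ε : ℝ) {f : ℝ × ℝ → ℂ} (hf : Measurable f) (θ : ℝ) :
    Measurable (psi ε f θ) := by
  have h1 : Measurable fun s : ℝ => f (pg ε (rho ε s) θ) := by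
    refine hf.comp ((measurable_pg ε).comp (measurable_id.prodMk measurable_const))
  show Measurable fun s => psi ε f θ s
  unfold psi
  exact Measurable.ite measurableSet_Ioc h1 measurable_const

lemma aa_adm (hV : AR.VarMod) (ε : ℝ) {f : ℝ × ℝ → ℂ} {M : ℝ → ℝ≥0} (hf : Measurable f)
    (hM : Measurable M)
    (hbd : ∀ θ ∈ Ioo (-π) π, ∀ ρ ∈ Ioc (1 / 2 : ℝ) 1, ‖f (pg ε ρ θ)‖ₑ ≤ M θ)
    (hvar : ∀ θ ∈ Ioo (-π) π, eVariationOn (fun ρ => f (pg ε ρ θ)) (Ioc (1 / 2) 1) ≤ M θ) :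
    AR.Adm (aa ε f) (fun θ => 3 * M θ) := by
  have hpsi : ∀ θ ∈ Ioo (-π) π, ∀ s, ‖psi ε f θ s‖ₑ ≤ M θ := by
    intro θ hθ s
    unfold psi
    split_ifs with h
    · exact hbd θ hθ _ (rho_mem h)
    · simp
  refine ⟨measurable_aa ε hf, by fun_prop, ?_, ?_, ?_⟩
  · intro s θ hs
    unfold aa psi
    split_ifs with h1 h2
    · exact absurd ⟨(lo_nonneg ε).trans h2.1.le, h2.2.trans (hi_le_one ε)⟩ hs
    · rfl
    · rfl
  · intro s θ
    unfold aa
    split_ifs with h1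
    · calc ‖psi ε f θ s‖ₑ ≤ M θ := hpsi θ h1 s
        _ = M θ * 1 := (mul_one _).symm
        _ ≤ M θ * 3 := by gcongr; norm_num
        _ = _ := by push_cast; ring
    · simp
  · intro h θ
    by_cases hθ : θ ∈ Ioo (-π) π
    · have hvψ : eVariationOn (psi ε f θ) univ ≤ ((M θ + 2 * M θ : ℝ≥0) : ℝ≥0∞) := by
        have h1 : eVariationOn (fun s => f (pg ε (rho ε s) θ)) (Ioc (lo ε) (hi ε)) ≤ M θ := by
          refine le_trans ?_ (hvar θ hθ)
          exact eVariationOn.comp_le_of_monotoneOn (fun r => f (pg ε r θ)) (fun s => rho ε s)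
            (fun x hx y hy hxy => rho_mono hx hy hxy) (fun s hs => rho_mem hs)
        exact TH370.VR.eVariationOn_trunc (fun s hs => hbd θ hθ _ (rho_mem hs)) h1
      have h1 := hV (psi ε f θ) _ (measurable_psi ε hf θ) hvψ h
      have hpt : ∀ s, ‖aa ε f (s + h) θ - aa ε f s θ‖ₑ = ‖psi ε f θ (s + h) - psi ε f θ s‖ₑ := by
        intro s
        unfold aa
        rw [if_pos hθ, if_pos hθ]
      simp only [hpt]
      refine h1.trans (le_of_eq ?_)
      push_cast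
      ring
    · have h0 : ∀ s, aa ε f s θ = 0 := by
        intro s
        unfold aa
        rw [if_neg hθ]
      simp [h0]

lemma eta_one {s : ℝ} (h1 : 1 / 4 < s) (h2 : s ≤ 1) : MV.eta s = 1 := by
  unfold MV.eta
  rw [Real.smoothTransition.one_of_one_le (by linarith),
    Real.smoothTransition.one_of_one_le (by linarith), one_mul]

lemma pg_eq {ε : ℝ} {x : ℝ × ℝ} (hx : x ∈ polarCoord.source) (h1 : ε ^ 2 * AR.sq x < 1) :
    pg ε (rho ε (ps ε (AR.sq x))) (AR.ang x) = x := by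
  have hsq : 0 ≤ AR.sq x := by unfold AR.sq; positivity
  have hw : 0 < √(1 - ε ^ 2 * AR.sq x) := Real.sqrt_pos.2 (by linarith)
  have hw2 : √(1 - ε ^ 2 * AR.sq x) ^ 2 = 1 - ε ^ 2 * AR.sq x := Real.sq_sqrt (by linarith)
  have hR2 : √(AR.sq x) ^ 2 = AR.sq x := Real.sq_sqrt hsq
  unfold pg
  rw [rho_ps h1.le]
  set w := √(1 - ε ^ 2 * AR.sq x) with hwd
  have e1 : 1 + ε ^ 2 * (√(AR.sq x) / w) ^ 2 = (1 / w) ^ 2 := by
    rw [div_pow, hR2, div_pow, one_pow]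
    field_simp
    rw [hw2]
    ring
  rw [e1, Real.sqrt_sq (by positivity)]
  have e2 : √(AR.sq x) / w / (1 / w) = √(AR.sq x) := by
    field_simp
  rw [e2]
  exact polarCoord.left_inv hx

lemma fap_aa {ε : ℝ} {f : ℝ × ℝ → ℂ}
    (h0 : ∀ x, ¬ (ε ^ 2 * AR.sq x < 1 ∧ 1 / 4 < gn ε (AR.sq x) ∧ gn ε (AR.sq x) ≤ 1) → f x = 0)
    {x : ℝ × ℝ} (hx : x ∈ polarCoord.source) : fap ε (aa ε f) x = f x := by
  have hang : AR.ang x ∈ Ioo (-π) π := by
    have h := polarCoord.map_source hx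
    rw [polarCoord_target] at h
    exact h.2
  have hsq : 0 ≤ AR.sq x := by unfold AR.sq; positivity
  unfold fap pro
  by_cases h1 : ε ^ 2 * AR.sq x < 1
  · rw [if_pos h1]
    unfold aa
    rw [if_pos hang]
    unfold psi
    rw [pg_eq hx h1]
    by_cases h2 : 1 / 4 < gn ε (AR.sq x) ∧ gn ε (AR.sq x) ≤ 1
    · rw [eta_one h2.1 h2.2]
      have hd : 0 < 1 - ε ^ 2 * AR.sq x := by linarith
      have h3 := h2.1
      have h4 := h2.2
      unfold gn at h3 h4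
      rw [lt_div_iff₀ hd] at h3
      rw [div_le_one hd] at h4
      have hlo : lo ε < ps ε (AR.sq x) := by
        unfold lo
        refine ps_strict (by positivity) ?_
        rw [div_lt_iff₀ (by positivity)]
        nlinarith
      have hhi : ps ε (AR.sq x) ≤ hi ε := by
        unfold hi
        refine ps_mono hsq ?_
        rw [le_div_iff₀ (by positivity)]
        nlinarith
      rw [if_pos ⟨hlo, hhi⟩]
      simp
    · rw [h0 x (fun h => h2 h.2)]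
      simp
  · rw [if_neg h1, h0 x (fun h => h1 h.1)]
    simp

theorem shellP_of (h15 : StrongP) (hV : Pool.Agent.TH407.AR.VarMod) : ShellP := by
  intro A0 q hq
  obtain ⟨C, hC⟩ := h15 A0 q hq
  refine ⟨C * 3 ^ q, ?_⟩
  intro ε hε0 hε1 f M hf hM h0 hbd hvar
  have hadm := aa_adm hV ε hf hM hbd hvar
  have h1 := hC ε hε0 hε1 (aa ε f) (fun θ => 3 * M θ) hadm
  have hae : fap ε (aa ε f) =ᵐ[volume] f := by
    have h2 : ∀ᵐ x : ℝ × ℝ, x ∈ polarCoord.source := by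
      have h3 := polarCoord_source_ae_eq_univ
      filter_upwards [h3] with x hx
      have : polarCoord.source x ↔ (univ : Set (ℝ × ℝ)) x := by
        rw [hx]
      exact this.2 trivial
    filter_upwards [h2] with x hx
    exact fap_aa h0 hx
  have hEX : ∀ X t, EP ε f X t = EP ε (fap ε (aa ε f)) X t := by
    intro X t
    unfold EP
    refine integral_congr_ae ?_
    filter_upwards [hae] with x hx
    rw [hx]
  simp only [hEX]
  refine h1.trans ?_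
  have h4 : ∀ θ, ((3 * M θ : ℝ≥0) : ℝ≥0∞) ^ q = ((3 ^ q : ℝ≥0) : ℝ≥0∞) * (M θ : ℝ≥0∞) ^ q := by
    intro θ
    rw [ENNReal.coe_mul, ENNReal.mul_rpow_of_nonneg _ _ (by linarith),
      ENNReal.coe_rpow_of_nonneg _ (by linarith)]
  simp only [h4]
  rw [lintegral_const_mul' _ _ ENNReal.coe_ne_top, ENNReal.coe_mul, mul_assoc]

end Pool.Agent.TH761.MV
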